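import Pool.Agent.N984.DI.Stm

/-!
# DI/CXY (helper530): compounds of the two matrices
-/

set_option autoImplicit false

namespace Pool.Agent.N530.DI

open Matrix Finset Pool.Agent.N984.DI
open scoped ComplexOrder

private theorem cpd_one (h2 : CPM) (n k : ℕ) : cpd k (1 : Matrix (Fin n) (Fin n) ℂ) = 1 := by
  have h := (h2 n k).2.2.2 (fun _ => 1)
  have e1 : (Matrix.diagonal (fun _ : Fin n => (((1 : ℝ)) : ℂ))) = 1 := by
    simp only [Complex.ofReal_one]
    exact Matrix.diagonal_one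
  have e2 : (Matrix.diagonal (fun I : Ix n k => ((∏ _i ∈ I.1, (1 : ℝ) : ℝ) : ℂ))) = 1 := by
    simp only [Finset.prod_const_one, Complex.ofReal_one]
    exact Matrix.diagonal_one
  rw [e1, e2] at h
  exact h

private theorem posDef_BAAB {ι : Type} [Fintype ι] [DecidableEq ι] {A B : Matrix ι ι ℂ}
    (hA : A.PosDef) (hB : B.PosDef) : (B * (A * A) * B).PosDef := by
  have e : B * (A * A) * B = (A * B)ᴴ * (A * B) := by
    rw [Matrix.conjTranspose_mul, hA.isHermitian.eq, hB.isHermitian.eq]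
    simp only [Matrix.mul_assoc]
  rw [e]
  refine Matrix.PosDef.conjTranspose_mul_self _ ?_
  exact Matrix.mulVec_injective_of_isUnit (hA.isUnit.mul hB.isUnit)

theorem t_CXY (h2 : CPM) (h3 : CPP) : CXY := by
  intro n k A B hA hB p
  have hm : ∀ A B : Matrix (Fin n) (Fin n) ℂ, cpd k (A * B) = cpd k A * cpd k B := (h2 n k).1
  constructor
  · unfold XX
    rw [hm, hm, (h3 n k A hA).2, (h3 n k B hB).2]
  · unfold YY
    have hinv : cpd k A⁻¹ = (cpd k A)⁻¹ := by
      symm
      apply Matrix.inv_eq_right_inv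
      rw [← hm, Matrix.mul_nonsing_inv _ ((Matrix.isUnit_iff_isUnit_det _).1 hA.isUnit),
        cpd_one h2]
    rw [hm, hm, (h3 n k _ (posDef_BAAB hA hB)).2, hm, hm, hm, hinv]

end Pool.Agent.N530.DI
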